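import Pool.Agent.P8H42.NS6

/-!
# Density thresholds forcing unbounded representation counts near quadratic sequences

`rep A n` is the number of ordered pairs of elements of `A` with sum `n`,
`Z c n = exp (c log n / log log n)`, and `V c` is the set of the `n` with `|b n - a x²| ≤ Z c n` for
some integers `1 ≤ a, b ≤ Z c n` and `x`. For some `c > 0`:

1. for all large `N` and all real `α ≥ 1 / Z c N`, a set `A` with at least `√N / Z c N` elements
   `n ≤ N` within `Z c N` of `α` times a square has `rep A m ≥ Z c N` for some `m ≤ 2 N`;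
2. the same holds if `A` has at least `√N / (Z c N)²` elements `n ≤ N` in `V c`;
3. `V c` contains all large values of integral quadratic polynomials whose coefficients (which may
   depend on the value) are at most `Z (c / 3) n`;
4. inside `V c` every `g ≤ Z c` forces unbounded representations;
5. every `g ≤ Z c` forces unbounded representations iff it does so for the sets disjoint from `V c`;
6. some `g → ∞` forces unbounded representations iff some `g → ∞` does so for the sets disjoint
   from `V c`.

The heart of the proof: for all large `X` every `B ⊆ [0, X)` with at least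
`X exp (-c log X / log log X)` elements has `exp (c log X / log log X)` pairs `(x, y)` with the same
value of `x² + y²`. It is proved by choosing one prime `p ≡ 1 (mod 4)`, `p ≤ (log X)²`, after the
other such that the pairs in `B²` with `x² + y²` divisible by the product `d` of the primes chosen
so far number at least `1.3 ^ k |B|² / d`. A large part of `B` in a class modulo `d` is well
distributed modulo all but few further primes, so that a new prime which is good for almost all
pairs of classes exists.
-/

set_option autoImplicit false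

namespace Pool.Agent.Results.MP_491344_nt.NearQuadratics

open Filter Pool.Agent.P8H42.NS

/-- **Thresholds near quadratic sequences.** -/
theorem result : ∃ c : ℝ, 0 < c ∧
    -- 1. near a real multiple of the squares
    (∀ᶠ N : ℕ in atTop, ∀ (A : Set ℕ) (α : ℝ), 1 / Z c N ≤ α →
      Real.sqrt N / Z c N ≤
        ({n : ℕ | n ∈ A ∧ 1 ≤ n ∧ n ≤ N ∧ ∃ x : ℕ, |(n : ℝ) - α * (x : ℝ) ^ 2| ≤ Z c N}.ncard : ℝ) →
      ∃ m ≤ 2 * N, Z c N ≤ rep A m) ∧
    -- 2. near rational multiples of squares with varying ratio
    (∀ᶠ N : ℕ in atTop, ∀ A : Set ℕ,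
      Real.sqrt N / Z c N ^ 2 ≤ ((A ∩ V c ∩ Set.Icc 1 N).ncard : ℝ) →
      ∃ m ≤ 2 * N, Z c N ≤ rep A m) ∧
    -- 3. values of quadratic polynomials with small coefficients
    (∀ᶠ n : ℕ in atTop, ∀ u v w x : ℤ, 1 ≤ u → (u : ℝ) ≤ Z (c / 3) n →
      |(v : ℝ)| ≤ Z (c / 3) n → |(w : ℝ)| ≤ Z (c / 3) n → (n : ℤ) = u * x ^ 2 + v * x + w →
      n ∈ V c) ∧
    -- 4. thresholds inside `V c`
    (∀ g : ℕ → ℝ, (∀ᶠ N in atTop, 0 < g N ∧ g N ≤ Z c N) → ∀ A ⊆ V c,
      (∃ C : ℝ, 0 < C ∧ ∃ᶠ N : ℕ in atTop,
        Real.sqrt N / g N ≤ C * ((A ∩ Set.Icc 1 N).ncard : ℝ)) → Unbdd A) ∧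
    -- 5. reduction to the sets outside `V c`
    (∀ g : ℕ → ℝ, (∀ᶠ N in atTop, 0 < g N ∧ g N ≤ Z c N) →
      (Forces g ↔ ∀ A : Set ℕ, Disjoint A (V c) → Dense A g → Unbdd A)) ∧
    -- 6. the question itself
    ((∃ g : ℕ → ℝ, Tendsto g atTop atTop ∧ Forces g) ↔
      ∃ g : ℕ → ℝ, Tendsto g atTop atTop ∧
        ∀ A : Set ℕ, Disjoint A (V c) → Dense A g → Unbdd A) :=
  ⟨c1, c1_pos, part1, part2, part3, fun g hg A hA h => part4 g hg A hA h,
    fun g hg => part5 g hg, part6⟩

end Pool.Agent.Results.MP_491344_nt.NearQuadratics
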