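import Mathlib
import Pool.Agent.P8H34.SF.Defs
import Pool.Agent.P8H34.SF.Final

/-!
# MP_491344_nt: representation functions and traces of translates

For a set `A` of naturals, a finite set `Y` of integers and an integer `x` let `trace A Y x` be the set of
the `y ∈ Y` with `x + y ∈ A`, and let `traces A Y` be the number of the different traces on `Y` of the
translates of `A`. The maximum of `traces A Y` over the sets `Y` with `m` elements is the shatter function
(or the maximal pattern complexity) of `A` at `m`.

1. For every `m` there are `c > 0` and `N₀` such that for all `N ≥ N₀` and all sets `B` of naturals with at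
   least `N ^ (1/2 - c)` elements in `[1, N]` and with `r_B(n) ≤ N ^ c` for all `n ≤ 4 N` there is a set `Y`
   of `m` integers such that **every** subset of `Y` with at most two elements is the trace on `Y` of a
   translate of `B`.
   In particular (`g` growing more slowly than every power): a set `A` with `|A ∩ [1, N]| ≫ √N / g(N)` and
   bounded `r_A` has for every `m` at least `1 + m + m (m - 1) / 2` traces on some set of `m` integers.
2. Hence for every `m` there is `c > 0` such that every `g` with `0 < g(N) ≤ N ^ c` forces unbounded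
   representations (even `r_A(n) > N ^ c` for some `n ≤ 4 N`, for arbitrarily large `N`) for the sets `A`
   whose translates have at most `m (m + 1) / 2` traces on every set of `m` integers (`SmallShatter m A`),
   and also for all sets `A` such that for arbitrarily large `N` the set `A ∩ [1, N]` is covered by `N ^ c`
   subsets of `A` of this kind (`Composed c m A`).
3. and 4. This is sharp: if `r_A ≤ 2` then the translates of `A` have at most `m (m + 1) / 2 + 1` traces on
   every set of `m` integers, and for odd primes `p` the set `ET p` of Erdős and Turán has `p` elements, is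
   contained in `[1, 2 p ^ 2]` and has `r ≤ 2`.

The proof of part 1: call a difference popular if it has more than `N ^ (C c)` representations. The
elements `y` of `Y` are chosen one by one from sets `U` of candidates with `|U| ≥ N ^ (1 - C c)`; by the
Cauchy-Schwarz inequality for the translates of `B`, restricted to `U`, and because few pairs of elements of
`B` have a popular difference, some `y ∈ U` forms unpopular (and represented) differences with many elements
`z` of `U`; then all `z` which lie together with `y` and an earlier element in a translate of `B` are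
deleted.
-/

set_option autoImplicit false

namespace Pool.Agent.Results.MP_491344_nt.ShatterFunctions

open Filter Pool.Agent.P8H34.SF

theorem result :
    -- 1. every subset with at most two elements of some set of `m` integers is a trace
    (∀ m : ℕ, 1 ≤ m → ∃ c : ℝ, 0 < c ∧ ∃ N₀ : ℕ, ∀ N : ℕ, N₀ ≤ N → ∀ B : Set ℕ,
      (N : ℝ) ^ (1 / 2 - c) ≤ (B ∩ Set.Icc 1 N).ncard →
      (∀ n ≤ 4 * N, (rep B n : ℝ) ≤ (N : ℝ) ^ c) →
        ∃ Y : Finset ℤ, Y.card = m ∧ ∀ S ⊆ Y, S.card ≤ 2 → ∃ x : ℤ, trace B Y x = S) ∧
    -- 2. all `g ≤ N ^ c` force unbounded representations for the sets with few traces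
    (∀ m : ℕ, 1 ≤ m → ∃ c : ℝ, 0 < c ∧ ∀ g : ℕ → ℝ,
      (∀ᶠ N : ℕ in atTop, 0 < g N ∧ g N ≤ (N : ℝ) ^ c) → ∀ A : Set ℕ, Dense g A →
        (SmallShatter m A ∨ Composed c m A) →
          ∃ᶠ N : ℕ in atTop, ∃ n ≤ 4 * N, (N : ℝ) ^ c < rep A n) ∧
    -- 3. the translates of a set with `r ≤ 2` have at most `m (m + 1) / 2 + 1` traces
    (∀ A : Set ℕ, (∀ n, rep A n ≤ 2) → ∀ Y : Finset ℤ, 2 * traces A Y ≤ Y.card * (Y.card + 1) + 2) ∧
    -- 4. and there are such sets with `p` elements in `[1, 2 p ^ 2]`
    (∀ p : ℕ, p.Prime → p ≠ 2 →
      ET p ⊆ Set.Icc 1 (2 * p ^ 2) ∧ (ET p).ncard = p ∧ ∀ n, rep (ET p) n ≤ 2) := by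
  refine ⟨main1, ?_, fun A hA Y => sidon_traces hA Y, fun p hp hp2 =>
    ⟨ET_sub hp.pos, ET_ncard hp.pos, fun n => ET_rep hp hp2 n⟩⟩
  intro m hm
  obtain ⟨c, hc, h⟩ := main2 m hm
  refine ⟨c, hc, fun g hg A hA hs => h g hg A hA ?_⟩
  rcases hs with hs | hs
  · refine ((eventually_ge_atTop 1).mono ?_).frequently
    intro N hN
    refine ⟨1, fun _ => A, ?_, ?_, fun _ => ⟨Set.Subset.rfl, hs⟩⟩
    · have hN1 : (1 : ℝ) ≤ N := by exact_mod_cast hN
      simpa using Real.one_le_rpow hN1 hc.le
    · intro a ha
      exact Set.mem_iUnion.2 ⟨0, ha.1⟩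
  · exact hs

end Pool.Agent.Results.MP_491344_nt.ShatterFunctions
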