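import Pool.Agent.P8H47.SM.Exist

/-!
# Density thresholds forcing unbounded representation counts: randomly perturbed sets

`rep A n` is the number of ordered pairs of elements of `A` with sum `n`. Every element `a` of an
arbitrary set `A` is moved to a random position `Y a`, independently of the others; `Y a` takes each
of the values `a, a + 1, …, a + L(a)` with probability at least `a ^ (-o(1))` (`Moves μ L Y`; the
rest of its distribution is arbitrary, and the probability that `a` is moved at all may tend to `0`).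

1. Growth: let `k(N)² g(N)² = o(L(a))` for `N ^ (1/4) ≤ a ≤ N`, and let the probabilities be at least
   `a ^ (-1 / (16 k(N)))` there. Then almost surely for all large `N` with
   `|A ∩ [1, N]| ≥ c √N / g(N)` some `n ≤ 3 N` has at least `k(N)` representations as a sum of two
   elements of the moved set `{Y a : a ∈ A}`.
2. If `g(N)² = o(L(a))` for `N ^ (1/4) ≤ a ≤ N`, then for every `A` with
   `|A ∩ [1, N]| ≥ c √N / g(N)` for infinitely many `N` the representation function of the moved set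
   is almost surely unbounded.
3. For every `L → ∞` (arbitrarily slowly) there is a `g → ∞` for which 2 holds.
4. A bound for finite sets: the probability that all `n ≤ 2 N + 2 l` have fewer than `k`
   representations is at most `(1 - η ^ (2 k)) ^ M`.
5. For every `L → ∞` there is a `g → ∞` such that for every `A` with
   `|A ∩ [1, N]| ≥ c √N / g(N)` for infinitely many `N` there are positions `a ≤ y a ≤ a + L(a)`
   for which `{y a : a ∈ A}` has an unbounded representation function.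
6. For bounded perturbations the question is the original one: if `|y a - a| ≤ s`, then `rep A` is
   bounded if and only if the representation function of `{y a : a ∈ A}` is bounded.
-/

set_option autoImplicit false

namespace Pool.Agent.Results.MP_491344_nt.SmoothedThresholds

open Filter MeasureTheory ProbabilityTheory Pool.Agent.P8H47.SM

universe u

/-- `|A ∩ [1, N]| ≥ c √N / g(N)` for some `c > 0` and infinitely many `N` -/
def DenseIo (g : ℕ → ℝ) (A : Set ℕ) : Prop :=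
  ∃ C : ℝ, 0 < C ∧ ∃ᶠ N : ℕ in atTop, Real.sqrt N / g N ≤ C * ((A ∩ Set.Icc 1 N).ncard : ℝ)

/-- the representation function of `B` is unbounded -/
def Unbounded (B : Set ℕ) : Prop := ∀ K : ℕ, ∃ n, K < rep B n

theorem finite_bound {Ω : Type u} [MeasurableSpace Ω] (μ : Measure Ω) [IsProbabilityMeasure μ]
    (Y : ℕ → Ω → ℕ) (hm : ∀ a, Measurable (Y a)) (hi : iIndepFun Y μ) (η : ℝ) (N l k M : ℕ)
    (S : Finset ℕ) (hη0 : 0 ≤ η) (hk : 1 ≤ k) (hl : 1 ≤ l) (hS : ∀ a ∈ S, a ≤ N)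
    (hη : ∀ a ∈ S, ∀ x ≤ 2 * l, η ≤ μ.real {ω | Y a ω = a + x}) (hM : 4 * k * M ≤ S.card)
    (h : 32 * k ^ 2 * (2 * (N / l) + 1) < S.card * (S.card - 2)) :
    μ.real {ω | ∀ n ≤ 2 * N + 2 * l, rep ((fun a => Y a ω) '' (S : Set ℕ)) n < k} ≤
      (1 - η ^ (2 * k)) ^ M := by
  have hne : S.Nonempty := by
    rw [← Finset.card_pos]
    by_contra hc
    have : S.card = 0 := by omega
    rw [this] at h
    simp at h
  obtain ⟨a, ha⟩ := hne
  have hη1 : η ≤ 1 := (hη a ha 0 (by omega)).trans measureReal_le_one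
  have h1 := prob_finite hm hi (η := ENNReal.ofReal η) (by
    rw [← ENNReal.ofReal_one]
    exact ENNReal.ofReal_le_ofReal hη1) hk hl S hS (fun a ha x hx => by
      rw [ENNReal.ofReal_le_iff_le_toReal (measure_ne_top μ _)]
      exact hη a ha x hx) hM h
  have hu0 : 0 ≤ η ^ (2 * k) := by positivity
  have hu1 : η ^ (2 * k) ≤ 1 := pow_le_one₀ hη0 hη1
  rw [← ENNReal.ofReal_pow hη0, ← ENNReal.ofReal_one, ← ENNReal.ofReal_sub _ hu0,
    ← ENNReal.ofReal_pow (by linarith)] at h1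
  exact ENNReal.toReal_le_of_le_ofReal (pow_nonneg (by linarith) _) h1

/-- **Randomly perturbed sets have unbounded representation functions.** -/
theorem result :
    -- 1. growth of the representation function
    (∀ (L g : ℕ → ℝ) (k : ℕ → ℕ), (∀ᶠ N in atTop, 1 ≤ k N) → (∀ᶠ N in atTop, 1 ≤ g N) →
      (∀ D : ℝ, ∀ᶠ N : ℕ in atTop, ∀ a : ℕ, (N : ℝ) ^ (1 / 4 : ℝ) ≤ a → a ≤ N →
        D * (k N : ℝ) ^ 2 * g N ^ 2 ≤ L a) →
      ∀ (Ω : Type u) [MeasurableSpace Ω] (μ : Measure Ω) [IsProbabilityMeasure μ] (Y : ℕ → Ω → ℕ),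
        (∀ a, Measurable (Y a)) → iIndepFun Y μ →
        (∀ᶠ N : ℕ in atTop, ∀ a : ℕ, (N : ℝ) ^ (1 / 4 : ℝ) ≤ a → a ≤ N → ∀ x : ℕ,
          (x : ℝ) ≤ L a → (a : ℝ) ^ (-(1 / (16 * k N)) : ℝ) ≤ μ.real {ω | Y a ω = a + x}) →
        ∀ (A : Set ℕ) (C : ℝ), 0 < C → ∀ᵐ ω ∂μ, ∀ᶠ N : ℕ in atTop,
          Real.sqrt N / g N ≤ C * ((A ∩ Set.Icc 1 N).ncard : ℝ) →
          ∃ n ≤ 3 * N, k N ≤ rep ((fun a => Y a ω) '' A) n) ∧
    -- 2. moved sets almost surely have an unbounded representation function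
    (∀ L g : ℕ → ℝ, (∀ᶠ N in atTop, 1 ≤ g N) →
      (∀ D : ℝ, ∀ᶠ N : ℕ in atTop, ∀ a : ℕ, (N : ℝ) ^ (1 / 4 : ℝ) ≤ a → a ≤ N →
        D * g N ^ 2 ≤ L a) →
      ∀ (Ω : Type u) [MeasurableSpace Ω] (μ : Measure Ω) [IsProbabilityMeasure μ] (Y : ℕ → Ω → ℕ),
        Moves μ L Y → ∀ A, DenseIo g A → ∀ᵐ ω ∂μ, Unbounded ((fun a => Y a ω) '' A)) ∧
    -- 3. arbitrarily slowly growing perturbations, some `g` tending to infinity
    (∀ L : ℕ → ℝ, Tendsto L atTop atTop → ∃ g : ℕ → ℝ, Tendsto g atTop atTop ∧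
      ∀ (Ω : Type u) [MeasurableSpace Ω] (μ : Measure Ω) [IsProbabilityMeasure μ] (Y : ℕ → Ω → ℕ),
        Moves μ L Y → ∀ A, DenseIo g A → ∀ᵐ ω ∂μ, Unbounded ((fun a => Y a ω) '' A)) ∧
    -- 4. finite sets
    (∀ (Ω : Type u) [MeasurableSpace Ω] (μ : Measure Ω) [IsProbabilityMeasure μ] (Y : ℕ → Ω → ℕ),
      (∀ a, Measurable (Y a)) → iIndepFun Y μ → ∀ (η : ℝ) (N l k M : ℕ) (S : Finset ℕ),
        0 ≤ η → 1 ≤ k → 1 ≤ l → (∀ a ∈ S, a ≤ N) →
        (∀ a ∈ S, ∀ x ≤ 2 * l, η ≤ μ.real {ω | Y a ω = a + x}) → 4 * k * M ≤ S.card →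
        32 * k ^ 2 * (2 * (N / l) + 1) < S.card * (S.card - 2) →
        μ.real {ω | ∀ n ≤ 2 * N + 2 * l, rep ((fun a => Y a ω) '' (S : Set ℕ)) n < k} ≤
          (1 - η ^ (2 * k)) ^ M) ∧
    -- 5. deterministic perturbations
    (∀ L : ℕ → ℝ, Tendsto L atTop atTop → ∃ g : ℕ → ℝ, Tendsto g atTop atTop ∧
      ∀ A, DenseIo g A → ∃ y : ℕ → ℕ, (∀ a, a ≤ y a) ∧ (∀ᶠ a : ℕ in atTop, (y a : ℝ) ≤ a + L a) ∧
        Unbounded (y '' A)) ∧
    -- 6. bounded perturbations do not change the question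
    (∀ (A : Set ℕ) (y : ℕ → ℕ) (s : ℕ), (∀ a ∈ A, a ≤ y a + s ∧ y a ≤ a + s) →
      (Unbounded A ↔ Unbounded (y '' A))) := by
  refine ⟨?_, ?_, ?_, ?_, ?_, ?_⟩
  · intro L g k hk hg hL Ω _ μ _ Y hm hi hp A C hC
    exact ae_growth hk hg hL hm hi hp A hC
  · rintro L g hg hL Ω _ μ _ Y hY A ⟨C, hC, hA⟩
    exact ae_unbounded hg hL hY hC hA
  · intro L hL
    obtain ⟨g, hg, hg1, hgL⟩ := exists_g hL
    refine ⟨g, hg, ?_⟩
    rintro Ω _ μ _ Y hY A ⟨C, hC, hA⟩
    exact ae_unbounded (Eventually.of_forall hg1) hgL hY hC hA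
  · intro Ω _ μ _ Y hm hi η N l k M S h1 h2 h3 h4 h5 h6 h7
    exact finite_bound μ Y hm hi η N l k M S h1 h2 h3 h4 h5 h6 h7
  · intro L hL
    obtain ⟨g, hg, h⟩ := exists_move hL
    exact ⟨g, hg, fun A hA => h A hA⟩
  · intro A y s hy
    have h := bounded_iff hy
    unfold Unbounded
    constructor
    · intro h1
      by_contra h2
      push Not at h2
      obtain ⟨K, hK⟩ := h2
      obtain ⟨K', hK'⟩ := h.2 ⟨K, hK⟩
      obtain ⟨n, hn⟩ := h1 K'
      exact absurd (hK' n) (not_le.2 hn)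
    · intro h1
      by_contra h2
      push Not at h2
      obtain ⟨K, hK⟩ := h2
      obtain ⟨K', hK'⟩ := h.1 ⟨K, hK⟩
      obtain ⟨n, hn⟩ := h1 K'
      exact absurd (hK' n) (not_le.2 hn)

end Pool.Agent.Results.MP_491344_nt.SmoothedThresholds
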