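import Pool.Agent.P8H23.SC.Mor
import Pool.Agent.P8H23.SC.MorC
import Pool.Agent.P8H87.SC.Sharp2

/-!
# MP_491344_nt: substring complexity, Lempel–Ziv parses and bounded representation functions

Authors: helper23 (main theorem, parses, thresholds, morphic sets) and helper87 (sharpness).

Let `r_A(n)` be the number of ordered representations of `n` as a sum of two elements of `A ⊆ ℕ`.
Let `p_(A, N)(L)` (`blocks A N L`) be the number of different blocks of `L` consecutive terms of the
characteristic sequence of `A` inside `[0, N)`, and suppose that `p_(A, N)(L) ≤ K L` for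
`1 ≤ L ≤ N`: the substring complexity of `A ∩ [0, N)` is at most `K`. Main theorem: if all
`r_A(n) < 2 ^ (D + 1)` then

  `|A ∩ [0, N)| ≤ 2 (50 K (log₂ N + 1)) ^ D`.

In particular the same is true if `A ∩ [0, N)` has a Lempel–Ziv parse (or a grammar, or a
straight-line program) with `K` phrases. So the sets `A` with `|A ∩ [0, N)| ≥ N ^ (1 / 2 - β)` and
substring complexity `≤ N ^ η`, for arbitrarily large `N`, have `r_A(n) ≥ 2 ^ (D + 1)` for some `n`
whenever `β + D η < 1 / 2`; inside the class of sets with substring complexity `N ^ o(1)`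
every function `g(N) ≤ N ^ (1 / 2 - δ)` forces unbounded representations, and the fixed points of all
morphisms of exponential growth (under any coding) with bounded representation functions have at
most `C (log N) ^ (2 D)` elements below `N`. The bound is sharp up to the power of `log N`, for every
`D`: there are sets with `r_A < 2 ^ (D + 1)`, `p ^ D` elements below `N = (4 p ²) ^ D` (so
`|A ∩ [0, N)| = √N / 2 ^ D`) and with a Lempel–Ziv parse with at most `3 p D + 1 ≤ 4 D N ^ (1 / (2 D))`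
phrases.

Proof of the main theorem. Let `Q_0(I)` say that the interval `I` contains an element of `A`, and
`Q_(h+1)(I)` that `I` contains two disjoint intervals `[u, u + l)`, `[u + d, u + d + l)` on which `A`
looks the same, with `Q_h([u, u + l))`. `Q_(D+1)` gives a cube of dimension `D + 1` in `A` with
different sums, and so `2 ^ (D + 1)` representations of one number. If `Q_(h+1)` fails for a dyadic
interval `I` then at every scale `2 ^ i` at most `25 K` dyadic subintervals `J` of `I` satisfy `Q_h`: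
the `2 ^ i` windows of length `4 · 2 ^ i` around every fifth of these `J` are all different, and there
are at most `4 K 2 ^ i` different blocks of this length. A recursion over the scales (only the
elements of dyadic intervals which satisfy `Q_h`, and whose halves do not, are counted) gives the
bound `(50 K (m + 1)) ^ h` for the number of elements of `I`, `|I| = 2 ^ m`, if `Q_(h+1)(I)` fails.
For the morphic sets: on every level of the tree of the morphism the first occurrences of the letters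
have at most `m M` sons, all other factors are copies.

Relation to the results of the library: `LowComplexityThresholds` (starting library) assumes that the
number of blocks of the whole sequence is at most `L ^ γ` for all large `L` and obtains about
`1 / (γ - 1)` representations of one number; here `2 ^ ((1 / 2 - β) / (γ - 1))`, with a hypothesis
for infinitely many `N` only, and with the sharp exponent. `SharpWidth` concerns decision diagrams
(a restriction on the binary digits, not on the blocks).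
-/

set_option autoImplicit false

open Filter

namespace Pool.Agent.Results.MP_491344_nt.SubstringComplexity

open Pool.Agent.P8H23.SC

/-- The number of different blocks of length `L` of the whole characteristic sequence of `A`. -/
noncomputable def complexity (A : Set ℕ) (L : ℕ) : ℕ :=
  (Set.range (fun s : ℕ => {i : Fin L | s + (i : ℕ) ∈ A})).ncard

lemma blocks_le_complexity (A : Set ℕ) (N L : ℕ) : blocks A N L ≤ complexity A L :=
  Set.ncard_le_ncard (Set.image_subset_range _ _) (Set.toFinite _)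

theorem low_complexity (g : ℕ → ℝ) (hg0 : ∀ N, 0 < g N) (A : Set ℕ) (hA : Dense g A) (D : ℕ)
    (β γ : ℝ) (hγ : 1 ≤ γ) (hm : β + D * (γ - 1) < 1 / 2)
    (hg : ∃ᶠ N : ℕ in atTop, g N ≤ (N : ℝ) ^ β)
    (hp : ∀ᶠ L : ℕ in atTop, (complexity A L : ℝ) ≤ (L : ℝ) ^ γ) : ∃ n, 2 ^ (D + 1) ≤ rep A n := by
  obtain ⟨η, hη1, hη2⟩ : ∃ η : ℝ, γ - 1 < η ∧ β + D * η < 1 / 2 := by
    have hd : (0 : ℝ) < D + 1 := by positivity
    have h1 : γ - 1 < γ - 1 + (1 / 2 - β - D * (γ - 1)) / (D + 1) := by
      have : 0 < (1 / 2 - β - D * (γ - 1)) / ((D : ℝ) + 1) := div_pos (by linarith) hd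
      linarith
    refine ⟨_, h1, ?_⟩
    have h2 : (D : ℝ) * ((1 / 2 - β - D * (γ - 1)) / (D + 1)) < 1 / 2 - β - D * (γ - 1) := by
      rw [← mul_div_assoc, div_lt_iff₀ hd]
      nlinarith
    linarith
  refine thr g hg0 hA D β η (by linarith) hη2 ?_
  obtain ⟨L0, hL0⟩ := eventually_atTop.1 hp
  -- a constant for the small lengths
  obtain ⟨C, hC1, hC⟩ : ∃ C : ℝ, 1 ≤ C ∧ ∀ L, 1 ≤ L → (complexity A L : ℝ) ≤ C * (L : ℝ) ^ γ := by
    refine ⟨1 + ∑ L ∈ Finset.range L0, (complexity A L : ℝ), ?_, ?_⟩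
    · have : 0 ≤ ∑ L ∈ Finset.range L0, (complexity A L : ℝ) :=
        Finset.sum_nonneg fun _ _ => Nat.cast_nonneg _
      linarith
    · intro L hL
      have hL1 : (1 : ℝ) ≤ (L : ℝ) ^ γ := Real.one_le_rpow (by exact_mod_cast hL) (by linarith)
      have hs : 0 ≤ ∑ L ∈ Finset.range L0, (complexity A L : ℝ) :=
        Finset.sum_nonneg fun _ _ => Nat.cast_nonneg _
      rcases Nat.lt_or_ge L L0 with h | h
      · have h1 := Finset.single_le_sum (f := fun L => (complexity A L : ℝ))
          (fun i _ => Nat.cast_nonneg _) (Finset.mem_range.2 h)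
        have h2 : (complexity A L : ℝ) ≤ 1 + ∑ L ∈ Finset.range L0, (complexity A L : ℝ) := by
          have h3 : (complexity A L : ℝ) ≤ ∑ L ∈ Finset.range L0, (complexity A L : ℝ) := h1
          linarith
        exact h2.trans (le_mul_of_one_le_right (by linarith) hL1)
      · exact (hL0 L h).trans (le_mul_of_one_le_left (by linarith) (by linarith))
  have h1 : ∀ᶠ N : ℕ in atTop, C ≤ (N : ℝ) ^ (η - (γ - 1)) :=
    tendsto_natCast_atTop_atTop.eventually
      ((tendsto_rpow_atTop (by linarith : 0 < η - (γ - 1))).eventually_ge_atTop C)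
  refine (hg.and_eventually (h1.and (eventually_ge_atTop 1))).mono ?_
  rintro N ⟨h2, h3, h4⟩
  refine ⟨h2, fun L hL hLN => ?_⟩
  have hL0' : (0 : ℝ) < L := by exact_mod_cast hL
  have hN0 : (0 : ℝ) < N := by exact_mod_cast h4
  have hLN' : (L : ℝ) ≤ N := by exact_mod_cast hLN
  calc (blocks A N L : ℝ) ≤ complexity A L := by exact_mod_cast blocks_le_complexity A N L
    _ ≤ C * (L : ℝ) ^ γ := hC L hL
    _ = C * (L : ℝ) ^ (γ - 1) * L := by
        rw [mul_assoc, ← Real.rpow_add_one hL0'.ne', sub_add_cancel]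
    _ ≤ (N : ℝ) ^ (η - (γ - 1)) * (N : ℝ) ^ (γ - 1) * L := by
        gcongr
    _ = (N : ℝ) ^ η * L := by
        rw [← Real.rpow_add hN0, sub_add_cancel]

theorem result :
    -- (1) the main inequality
    (∀ (A : Set ℕ) (N K D : ℕ), (∀ L, 1 ≤ L → L ≤ N → blocks A N L ≤ K * L) →
      (∀ n, rep A n < 2 ^ (D + 1)) →
      (A ∩ Set.Iio N).ncard ≤ 2 * (50 * K * (Nat.log 2 N + 1)) ^ D) ∧
    -- (2) Lempel–Ziv parses
    (∀ (A : Set ℕ) (N z D : ℕ), Parses A z N → (∀ n, rep A n < 2 ^ (D + 1)) →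
      (A ∩ Set.Iio N).ncard ≤ 2 * (50 * z * (Nat.log 2 N + 1)) ^ D) ∧
    -- (3) sharpness of (1) and (2) for all `D`, up to the power of the logarithm
    (∀ D p : ℕ, p.Prime → ∃ A : Set ℕ, (∀ n, rep A n < 2 ^ (D + 1)) ∧
      (A ∩ Set.Iio ((4 * p ^ 2) ^ D)).ncard = p ^ D ∧
      ∃ z ≤ 3 * p * D + 1, Parses A z ((4 * p ^ 2) ^ D) ∧
        ∀ L, 1 ≤ L → blocks A ((4 * p ^ 2) ^ D) L ≤ z * L) ∧
    -- (4) thresholds: substring complexity at most `N ^ η` for infinitely many `N`
    (∀ g : ℕ → ℝ, (∀ N, 0 < g N) → ∀ A : Set ℕ, Dense g A → ∀ (D : ℕ) (β η : ℝ), 0 ≤ η →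
      β + D * η < 1 / 2 →
      (∃ᶠ N : ℕ in atTop, g N ≤ (N : ℝ) ^ β ∧
        ∀ L, 1 ≤ L → L ≤ N → (blocks A N L : ℝ) ≤ (N : ℝ) ^ η * L) →
      ∃ n, 2 ^ (D + 1) ≤ rep A n) ∧
    -- (5) thresholds: `p_A(L) ≤ L ^ γ` for all large `L`
    (∀ g : ℕ → ℝ, (∀ N, 0 < g N) → ∀ A : Set ℕ, Dense g A → ∀ (D : ℕ) (β γ : ℝ), 1 ≤ γ →
      β + D * (γ - 1) < 1 / 2 → (∃ᶠ N : ℕ in atTop, g N ≤ (N : ℝ) ^ β) →
      (∀ᶠ L : ℕ in atTop, (complexity A L : ℝ) ≤ (L : ℝ) ^ γ) → ∃ n, 2 ^ (D + 1) ≤ rep A n) ∧
    -- (6) inside the class of compressible sets every `g(N) ≤ N ^ (1 / 2 - δ)` forces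
    (∀ g : ℕ → ℝ, (∀ N, 0 < g N) → ∀ A : Set ℕ, Dense g A → ∀ δ : ℝ, 0 < δ →
      (∀ η : ℝ, 0 < η → ∃ᶠ N : ℕ in atTop, g N ≤ (N : ℝ) ^ (1 / 2 - δ) ∧
        ∃ z, Parses A z N ∧ (z : ℝ) ≤ (N : ℝ) ^ η) →
      ∀ R : ℕ, ∃ n, R < rep A n) ∧
    -- (7) morphic sets of exponential growth
    (∀ (α : Type) [Fintype α] (σ : α → List α) (w : ℕ → α) (B : Set α), IsFixed σ w →
      ∀ c lam : ℝ, 0 < c → 1 < lam → (∀ k, c * lam ^ k ≤ ((len σ w)^[k] 1 : ℕ)) → ∀ D : ℕ,
      (∀ n, rep {n | w n ∈ B} n < 2 ^ (D + 1)) →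
      ∃ C : ℕ, ∀ N, ({n | w n ∈ B} ∩ Set.Iio N).ncard ≤ C * (Nat.log 2 N + 1) ^ (2 * D)) := by
  refine ⟨?_, fun A N z D hz hr => main_lz hz hr, ?_, ?_, ?_, ?_, ?_⟩
  · intro A N K D hK hr
    rw [← cnt_eq]
    exact main hK hr
  · intro D p hp
    obtain ⟨A, h1, h2, z, h3, h4⟩ := Pool.Agent.P8H87.SC2.sharp2 D p hp
    exact ⟨A, h1, h2, z, h3, h4, fun L hL => blocks_parses h4 hL⟩
  · intro g hg0 A hA D β η hη hβ hf
    exact thr g hg0 hA D β η hη hβ hf
  · intro g hg0 A hA D β γ hγ hm hg hp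
    exact low_complexity g hg0 A hA D β γ hγ hm hg hp
  · intro g hg0 A hA δ hδ hf R
    exact thr_lz g hg0 hA (1 / 2 - δ) (by linarith) hf R
  · intro α _ σ w B hw c lam hc hlam hgr D hr
    exact mor_growth mor α σ w B hw c lam hc hlam hgr D hr

end Pool.Agent.Results.MP_491344_nt.SubstringComplexity
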